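import Pool.Agent.Lib.MP_c2298c_an.Defs
import Pool.Agent.Lib.MP_c2298c_an.Final

/-!
Both conclusions of the question fail for unbounded positive perturbations, at a positive time.
-/

open MeasureTheory Set Pool.Agent.Lib.MP_c2298c_an

theorem Pool.Agent.Results.MP_c2298c_an.Disproof.result :
    ∃ (Ω : Type) (_ : MeasurableSpace Ω) (ν : Measure Ω),
      SigmaFinite ν ∧ BothConclusionsFail (Lp ℝ 1 ν) := by
  obtain ⟨P, h1, h2, h3⟩ := exists_example
  exact ⟨Om (fun k => St (P.N k)), inferInstance, Measure.count, inferInstance, P.blocks.U,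
    P.blocks.T, P.blocks.Bop, P.blocks.W, 1, ⟨P.blocks.isSemigroup, P.blocks.isGenerator,
    P.blocks.isAdmissible, P.blocks.isDysonPhillips⟩,
    fun t ht => isWeaklyCompact_of_isCompact (h1 t ht), ⟨1, one_pos, h2 1⟩,
    ⟨1, one_pos, fun h => h3 2 (tendsto_iff_norm_sub_tendsto_zero.2 h)⟩⟩
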